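import Pool.Agent.helper94.VQE.RDMc
import Pool.Agent.helper62.RS.GLC
import Pool.Agent.helper92.RS.GMG
import Pool.Agent.helper83.RS.GLI
import Pool.Agent.helper62.QU.All

/-!
# MP_07c750 (QUE), project VQ, block 5, row RDM: reduction to the fundamental domain
-/

set_option autoImplicit false

namespace Pool.Agent.VQE

open Pool.Agent.RS

/-- reduction to the fundamental domain -/
theorem RDM_proof : RDM_stmt := RDM GLC (GMG GLC) (GLI GLC (GMG GLC)) QU.A_DOB

end Pool.Agent.VQE
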