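import Pool.Agent.helper62.VQ.SpecE
import Pool.Agent.helper62.RS.SpecG

/-!
# MP_07c750 (QUE), project VQ, block 5, row RDM: reduction to the fundamental domain (core)
-/

set_option autoImplicit false

open scoped MatrixGroups ContDiff Topology UpperHalfPlane
open UpperHalfPlane MeasureTheory Filter Set

namespace Pool.Agent.VQE

open Pool.Agent.RS

/-- the element of `Γ` used by `red` -/
noncomputable def RDM_e (Γ : Subgroup SL(2, ℝ)) (F : Set ℍ) (g : SL(2, ℝ)) : Γ :=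
  Classical.epsilon (fun γ : Γ => γ • (g • I) ∈ F)

theorem RDM_red (Γ : Subgroup SL(2, ℝ)) (F : Set ℍ) (g : SL(2, ℝ)) :
    red Γ F g = (RDM_e Γ F g : SL(2, ℝ)) * g := rfl

theorem RDM_spec {Γ : Subgroup SL(2, ℝ)} {F : Set ℍ} (hF : QU.NiceDom Γ F) (g : SL(2, ℝ)) :
    RDM_e Γ F g • (g • I) ∈ F :=
  Classical.epsilon_spec (p := fun γ : Γ => γ • (g • I) ∈ F) (hF.uniq (g • I)).exists

theorem RDM_uniq {Γ : Subgroup SL(2, ℝ)} {F : Set ℍ} (hF : QU.NiceDom Γ F) (g : SL(2, ℝ)) (γ : Γ)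
    (h : ((γ : SL(2, ℝ)) * g) • I ∈ F) : RDM_e Γ F g = γ := by
  refine (hF.uniq (g • I)).unique (RDM_spec hF g) ?_
  rw [mul_smul] at h
  exact h

theorem RDM_mem {Γ : Subgroup SL(2, ℝ)} {F : Set ℍ} (hF : QU.NiceDom Γ F) (g : SL(2, ℝ)) :
    red Γ F g ∈ dG F := by
  change (((RDM_e Γ F g : Γ) : SL(2, ℝ)) * g) • I ∈ F
  rw [mul_smul]
  exact RDM_spec hF g

theorem RDM_of_mem {Γ : Subgroup SL(2, ℝ)} {F : Set ℍ} (hF : QU.NiceDom Γ F) (g : SL(2, ℝ))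
    (γ : Γ) (h : (γ : SL(2, ℝ)) * g ∈ dG F) : red Γ F g = (γ : SL(2, ℝ)) * g := by
  rw [RDM_red, RDM_uniq hF g γ h]

theorem RDM_inv {Γ : Subgroup SL(2, ℝ)} {F : Set ℍ} (hF : QU.NiceDom Γ F) (γ : Γ) (g : SL(2, ℝ)) :
    red Γ F ((γ : SL(2, ℝ)) * g) = red Γ F g := by
  have h1 := RDM_mem hF ((γ : SL(2, ℝ)) * g)
  rw [RDM_red] at h1
  have h2 : ((RDM_e Γ F ((γ : SL(2, ℝ)) * g) * γ : Γ) : SL(2, ℝ)) * g ∈ dG F := by
    rw [Subgroup.coe_mul, mul_assoc]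
    exact h1
  rw [RDM_of_mem hF g _ h2, RDM_red, Subgroup.coe_mul, mul_assoc]

theorem RDM_id {Γ : Subgroup SL(2, ℝ)} {F : Set ℍ} (hF : QU.NiceDom Γ F) (g : SL(2, ℝ))
    (hg : g ∈ dG F) : red Γ F g = g := by
  have h := RDM_of_mem hF g 1 (by rw [Subgroup.coe_one, one_mul]; exact hg)
  rw [h, Subgroup.coe_one, one_mul]

theorem RDM_meas (hGLC : GLC_stmt) (hGMG : GMG_stmt) (hDOB : QU.DOB_stmt)
    {Γ : Subgroup SL(2, ℝ)} {F : Set ℍ} (hΓ : QU.SurfaceGroup Γ) (hF : QU.NiceDom Γ F) :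
    Measurable (red Γ F) := by
  have := hGLC.2.1
  have hc : Countable Γ := (hDOB Γ F hΓ hF).1
  intro A hA
  have h1 : red Γ F ⁻¹' A = ⋃ γ : Γ, ((fun g : SL(2, ℝ) => (γ : SL(2, ℝ)) * g) ⁻¹' (dG F ∩ A)) := by
    ext g
    simp only [mem_preimage, mem_iUnion, mem_inter_iff]
    constructor
    · intro h
      exact ⟨RDM_e Γ F g, RDM_mem hF g, h⟩
    · rintro ⟨γ, h2, h3⟩
      rw [RDM_of_mem hF g γ h2]
      exact h3
  rw [h1]
  refine MeasurableSet.iUnion fun γ => ?_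
  exact (continuous_const_mul (γ : SL(2, ℝ))).measurable ((hGMG.1 F hF.meas).1.inter hA)

theorem RDM_fund (hGLC : GLC_stmt) (hGMG : GMG_stmt) {Γ : Subgroup SL(2, ℝ)} {F : Set ℍ}
    (hF : QU.NiceDom Γ F) (ψ : SL(2, ℝ) → SL(2, ℝ)) (hψ : Measurable ψ)
    (hinv : ∀ (γ : Γ) g, ψ ((γ : SL(2, ℝ)) * g) = (γ : SL(2, ℝ)) * ψ g) :
    IsFundamentalDomain Γ (ψ ⁻¹' dG F) mG := by
  have := hGLC.2.1
  refine IsFundamentalDomain.mk' ?_ ?_
  · exact (hψ (hGMG.1 F hF.meas).1).nullMeasurableSet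
  · intro g
    obtain ⟨γ, h1, h2⟩ := hF.uniq (ψ g • I)
    refine ⟨γ, ?_, ?_⟩
    · change ψ ((γ : SL(2, ℝ)) * g) • I ∈ F
      rw [hinv, mul_smul]
      exact h1
    · intro γ' hγ'
      refine h2 γ' ?_
      have h3 : ψ ((γ' : SL(2, ℝ)) * g) • I ∈ F := hγ'
      rw [hinv, mul_smul] at h3
      exact h3

/-- reduction to the fundamental domain -/
theorem RDM (hGLC : GLC_stmt) (hGMG : GMG_stmt) (hGLI : GLI_stmt) (hDOB : QU.DOB_stmt) :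
    RDM_stmt := by
  intro Γ F hΓ hF
  have i1 := hGLC.2.1
  have hmeas := RDM_meas hGLC hGMG hDOB hΓ hF
  refine ⟨fun g => RDM_mem hF g, fun γ g => RDM_inv hF γ g, fun g hg => RDM_id hF g hg,
    fun g => ⟨RDM_e Γ F g, rfl⟩, hmeas, ?_⟩
  intro φ ψ hφ hψ hψφ hφψ hφinv hφmp
  have i2 : Countable Γ := (hDOB Γ F hΓ hF).1
  have i3 : SMulInvariantMeasure Γ SL(2, ℝ) mG := by
    constructor
    intro γ s hs
    have h1 := hGLI (γ : SL(2, ℝ))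
    have h2 : Measure.map (fun g => (γ : SL(2, ℝ)) * g) mG s = mG s := by rw [h1]
    rw [Measure.map_apply (continuous_const_mul _).measurable hs] at h2
    exact h2
  have hψinv : ∀ (γ : Γ) g, ψ ((γ : SL(2, ℝ)) * g) = (γ : SL(2, ℝ)) * ψ g := by
    intro γ g
    have h1 : φ ((γ : SL(2, ℝ)) * ψ g) = (γ : SL(2, ℝ)) * g := by rw [hφinv, hφψ]
    rw [← h1, hψφ]
  have hdG : MeasurableSet (dG F) := (hGMG.1 F hF.meas).1
  have hm2 : Measurable (fun g => red Γ F (φ g)) := hmeas.comp hφ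
  refine ⟨hm2, ?_⟩
  ext A hA
  rw [Measure.map_apply hm2 hA, Measure.restrict_apply (hm2 hA), Measure.restrict_apply hA]
  have e1 : (fun g => red Γ F (φ g)) ⁻¹' A ∩ dG F = φ ⁻¹' (red Γ F ⁻¹' A ∩ ψ ⁻¹' dG F) := by
    ext g
    simp only [mem_inter_iff, mem_preimage, hψφ]
  rw [e1, hφmp.measure_preimage ((hmeas hA).inter (hψ hdG)).nullMeasurableSet]
  have f1 := RDM_fund hGLC hGMG hF ψ hψ hψinv
  have f2 := RDM_fund hGLC hGMG hF id measurable_id (fun _ _ => rfl)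
  have hB : ∀ γ : Γ, (fun x : SL(2, ℝ) => γ • x) ⁻¹' (red Γ F ⁻¹' A) = red Γ F ⁻¹' A := by
    intro γ
    ext g
    simp only [mem_preimage]
    have : γ • g = (γ : SL(2, ℝ)) * g := rfl
    rw [this, RDM_inv hF]
  rw [f1.measure_set_eq f2 (hmeas hA) hB]
  congr 1
  ext g
  simp only [mem_inter_iff, mem_preimage, id]
  constructor
  · rintro ⟨h1, h2⟩
    rw [RDM_id hF g h2] at h1
    exact ⟨h1, h2⟩
  · rintro ⟨h1, h2⟩
    refine ⟨?_, h2⟩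
    rw [RDM_id hF g h2]
    exact h1

end Pool.Agent.VQE
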